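import Pool.Agent.FCS.Local

/-!
# Furtwängler's theorem over quadratic fields: `r = 3`, integral solutions
-/

open NumberField

namespace Pool.Agent.FCS

open Pool.Agent.FCW Pool.Agent.FCM Pool.Agent.FCN

variable {K : Type} [Field K] [NumberField K]
variable {τ : 𝓞 K ≃+* 𝓞 K} {p : ℕ} {X : Fin 3 → 𝓞 K} {g : ℤ} {N : Fin 3 → ℤ}
  {T : Fin 3 → Fin 3 → ℤ}

/-- If one prime above `3` divides no variable, then no prime above `3 p` does. -/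
theorem main3 [Fact p.Prime] (hKEY : T_KEYR) (hTWO : T_TWOR) (hPAD : T_PADG)
    (hPRM : T_PRMX) (hPOW : T_POWX)
    (hK : Module.finrank ℚ K = 2) (hτ : IsConj K τ)
    (h5 : 5 ≤ p) (hW : ¬ p ^ 2 ∣ 2 ^ (p - 1) - 1)
    (hWr : ¬ p ^ 2 ∣ 3 ^ (p - 1) - 1) (hD : Dat τ p X g N T)
    (hcop : ∀ Q : Ideal (𝓞 K), Q.IsPrime → (((3 : ℕ) : 𝓞 K) ∈ Q ∨ (p : 𝓞 K) ∈ Q) →
      ∀ i j, i ≠ j → X i ∈ Q → X j ∉ Q)
    {R : Ideal (𝓞 K)} (hRp : R.IsPrime) (hrR : ((3 : ℕ) : 𝓞 K) ∈ R) (hF : Res R)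
    (h0 : ∀ i, X i ∉ R) :
    ∀ Q : Ideal (𝓞 K), Q.IsPrime → (((3 : ℕ) : 𝓞 K) ∈ Q ∨ (p : 𝓞 K) ∈ Q) → ∀ i, X i ∉ Q := by
  have hp : p.Prime := Fact.out
  have hr : Nat.Prime 3 := Nat.prime_three
  have hrp : 3 ≠ p := by omega
  obtain ⟨P, hPp, hpP⟩ : ∃ Q : Ideal (𝓞 K), Q.IsPrime ∧ (p : 𝓞 K) ∈ Q := by
    have h1 : ¬ IsUnit ((p : ℕ) : 𝓞 K) := by
      intro hu
      have h1 : IsUnit (Algebra.norm ℤ ((p : ℕ) : 𝓞 K)) := hu.map (Algebra.norm ℤ)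
      have h2 : ((p : ℕ) : 𝓞 K) = algebraMap ℤ (𝓞 K) (p : ℤ) := by simp
      rw [h2, Algebra.norm_algebraMap, RingOfIntegers.rank, hK] at h1
      have h3 : IsUnit (p : ℤ) := (isUnit_pow_iff two_ne_zero).mp h1
      rw [Int.isUnit_iff] at h3
      omega
    obtain ⟨l, hl, hrl⟩ := exists_max_ideal_of_mem_nonunits h1
    exact ⟨l, hl.isPrime, hrl⟩
  have mkPl : ∀ q : ℕ, (q = 3 ∨ q = p) → ∀ Q : Ideal (𝓞 K), Q.IsPrime → (q : 𝓞 K) ∈ Q →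
      Pl τ q X Q := by
    intro q hqq Q hQ hqQ
    have h1 : ∀ Q' : Ideal (𝓞 K), (q : 𝓞 K) ∈ Q' → (((3 : ℕ) : 𝓞 K) ∈ Q' ∨ (p : 𝓞 K) ∈ Q') := by
      intro Q' h
      rcases hqq with rfl | rfl
      · exact Or.inl h
      · exact Or.inr h
    refine ⟨hQ, hqQ, hcop Q hQ (h1 Q hqQ), ?_⟩
    intro i j hij hi hj
    have h2 : (q : 𝓞 K) ∈ Q.comap (τ : 𝓞 K →+* 𝓞 K) := by
      rw [Ideal.mem_comap, map_natCast]
      exact hqQ
    exact hcop (Q.comap (τ : 𝓞 K →+* 𝓞 K)) (Ideal.comap_isPrime _ _) (h1 _ h2) i j hij hi hj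
  have hP := mkPl p (Or.inr rfl) P hPp hpP
  have hR := mkPl 3 (Or.inl rfl) R hRp hrR
  have back : ∀ (q : ℕ) (Q : Ideal (𝓞 K)), Pl τ q X Q →
      ((∀ Q : Ideal (𝓞 K), Pl τ q X Q → (∀ i, X i ∉ Q) → ∀ i, τ (X i) ∉ Q)) →
      (∀ i, τ (X i) ∉ Q) → ∀ i, X i ∉ Q := by
    intro q Q hQ h h1 i hi
    refine h _ (CORE_.pl_comap hτ hQ) h1 i ?_
    rw [Ideal.mem_comap]
    have e : (τ : 𝓞 K →+* 𝓞 K) (τ (X i)) = X i := hτ.invol _
    rw [e]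
    exact hi
  have sP : Side τ p X N T P := CORE_.side hτ hp (by omega) hp hD hP (Or.inl (Or.inl rfl))
    (fun h => SID_.ls0_p hK hτ h5 hW hD hP h)
    (back p P hP fun Q hQ h => (SID_.ls0_p hK hτ h5 hW hD hQ h).1)
  have ov : ∀ (q : ℕ) (hq : q.Prime) (S : Ideal (𝓞 K)), Pl τ q X S → (∀ i, X i ∉ S) →
      (∀ i, τ (X i) ∉ S) → ∀ Q : Ideal (𝓞 K), Q.IsPrime → (q : 𝓞 K) ∈ Q → ∀ i, X i ∉ Q := by
    intro q hq S hS h1 h2 Q hQ hqQ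
    rcases CORE_.two_primes hτ hq hS.pr hS.mem hQ hqQ with rfl | rfl
    · exact h1
    · exact h2
  rcases LOCS_.side3 hp h5 hD hR hF h0 with ⟨h0', s0⟩ | ⟨v, hv, s3⟩
  · have sR : Side τ 3 X N T R := Or.inr (Or.inr ⟨h0, h0', s0⟩)
    rcases CORE_.compare hKEY hTWO hPAD hPRM hPOW hK hτ h5 hW hr hrp hWr hD hP sP sR with
      ⟨v, a1, a2, a3, a4⟩ | ⟨u, v, w, v', w', huv, huw, hvw, huv', huw', hvw', a1, a2, a3, a4⟩ |
      ⟨a1, a2, a3, a4⟩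
    · exact absurd a3 (h0 v)
    · exact absurd a3 (h0 v')
    · intro Q hQ h
      rcases h with h | h
      · exact ov 3 hr R hR a3 a4 Q hQ h
      · exact ov p hp P hP a1 a2 Q hQ h
  · exfalso
    have rel := fun {i j k : Fin 3} (hij : i ≠ j) (hik : i ≠ k) (hjk : j ≠ k) (h1 : X k ∉ P)
      (h2 : τ (X k) ∉ P) (h3 : ¬ (p : ℤ) ∣ N i + T i j + N j) =>
      SID_.rl hKEY hTWO hK hτ h5 hW hr hrp hWr hD hP hij hik hjk h1 h2 h3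
    have relx := fun {i j k : Fin 3} (hij : i ≠ j) (hik : i ≠ k) (hjk : j ≠ k)
      (h1 : (p : ℤ) ∣ N i + T i j + N j) (h2 : (p : ℤ) ∣ N j) (h3 : ¬ (p : ℤ) ∣ T i j + 2 * N j) =>
      SID_.rlx hKEY hTWO hPAD hPRM hPOW hK hτ h5 hW hr hrp hWr hD hij hik hjk h1 h2 h3
    rcases sP with ⟨v', hv1, hv2, s1⟩ | ⟨u, v1, w, huv, huw, hvw, hv1, hw, s2⟩ | ⟨g0, g0', s0⟩
    · refine CMPS_.cmp1 h5 hr hrp hD.sym s1 (fun u huv => ?_) s3
      obtain ⟨k, hku, hkv⟩ := CMP_.third u v' huv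
      refine rel huv (Ne.symm hku) (Ne.symm hkv) (hP.cop v' k (Ne.symm hkv) hv1)
        (hP.cop' v' k (Ne.symm hkv) hv2) ?_
      obtain ⟨e1, e2⟩ := s1.2 u huv
      exact CMP_.not_dvd (n := N u) (by
        have : N u + T u v' + N v' - N u = T u v' + N v' := by ring
        rw [this]
        exact dvd_add e2 s1.1) e1
    · refine CMPS_.cmp2 h5 hr hrp hD.sym (u' := u) (fun v2 hv2 => ?_) s3
      obtain ⟨k, hku, hkv⟩ := CMP_.third u v2 (Ne.symm hv2)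
      obtain ⟨e1, e2, e3⟩ := s2.2 v2 hv2
      refine relx (Ne.symm hv2) (Ne.symm hku) (Ne.symm hkv) ?_ e1 ?_
      · have : N u + T u v2 + N v2 = (T u v2 + N u) + N v2 := by ring
        rw [this]
        exact dvd_add e2 e1
      · exact CMP_.not_dvd (n := -N u) (by
          have : T u v2 + 2 * N v2 - -N u = (T u v2 + N u) + 2 * N v2 := by ring
          rw [this]
          exact dvd_add e2 (Dvd.dvd.mul_left e1 2)) (by rw [dvd_neg]; exact s2.1)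
    · refine CMPS_.cmp0 h5 hr hrp s0 (fun u v1 huv => ?_) s3
      obtain ⟨k, hku, hkv⟩ := CMP_.third u v1 huv
      refine rel huv (Ne.symm hku) (Ne.symm hkv) (g0 k) (g0' k) ?_
      obtain ⟨e1, e2, e3⟩ := s0 u v1 huv
      exact CMP_.not_dvd (n := N u) (by
        have : N u + T u v1 + N v1 - N u = (T u v1 + N u) - (N u - N v1) := by ring
        rw [this]
        exact dvd_sub e3 e2) e1

/-- integral solutions `x^p + y^p + z^p = 0`, `3` not inert -/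
def T_FNT : Prop := ∀ (K : Type) [Field K] [NumberField K], Module.finrank ℚ K = 2 →
  ∀ (p : ℕ) [Fact p.Prime], 5 ≤ p → ¬ p ^ 2 ∣ 2 ^ (p - 1) - 1 → ¬ p ^ 2 ∣ 3 ^ (p - 1) - 1 →
  ∀ X : Fin 3 → 𝓞 K, (∀ i, X i ≠ 0) → X 0 ^ p + X 1 ^ p + X 2 ^ p = 0 →
  (∀ Q : Ideal (𝓞 K), Q.IsPrime → (((3 : ℕ) : 𝓞 K) ∈ Q ∨ (p : 𝓞 K) ∈ Q) →
    ∀ i j, i ≠ j → X i ∈ Q → X j ∉ Q) →
  ∀ R : Ideal (𝓞 K), R.IsPrime → ((3 : ℕ) : 𝓞 K) ∈ R → Res R → (∀ i, X i ∉ R) →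
  ∀ Q : Ideal (𝓞 K), Q.IsPrime → (((3 : ℕ) : 𝓞 K) ∈ Q ∨ (p : 𝓞 K) ∈ Q) → ∀ i, X i ∉ Q

theorem p_FNT (hKEY : T_KEYR) (hTWO : T_TWOR) (hPAD : T_PADG) (hPRM : T_PRMX)
    (hPOW : T_POWX) : T_FNT := by
  intro K _ _ hK p _ h5 hW hWr X hX h0 hcop R hR h3R hF hno
  have hp : p.Prime := Fact.out
  obtain ⟨τ, hτ⟩ := p_CONJ K hK
  obtain ⟨g, a, b, c, T₁, T₂, T₃, hg, N₁, N₂, N₃⟩ := p_DATA p_NF K τ hτ p hp.one_le (X 0) (X 1)
    (X 2) (hX 0) (hX 1) (hX 2) h0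
  have hg0 : g ≠ 0 := hg.ne'
  have psw : ∀ A t B : ℤ, Prim A t B → Prim B t A := fun A t B hP q hq h1 h2 h3 =>
    hP q hq h3 h2 h1
  have sw : ∀ (x y : 𝓞 K) (A t B : ℤ), NF K τ x y g A t B → NF K τ y x g B t A :=
    fun x y A t B h => p_NFI K τ hτ _ _ _ _ _ _ hg0 h.hB (by rw [add_comm]; exact h.hT) h.hA
      (psw _ _ _ h.prim)
  have hD : Dat τ p X g ![a, b, c]
      (fun i j => ![![0, T₁, T₂], ![T₁, 0, T₃], ![T₂, T₃, 0]] i j) := by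
    refine ⟨?_, hX, hg0, ?_, ?_⟩
    · intro i j k hij hik hjk
      fin_cases i <;> fin_cases j <;> fin_cases k <;>
        first
        | exact absurd rfl hij
        | exact absurd rfl hik
        | exact absurd rfl hjk
        | (simp only [Fin.zero_eta, Fin.mk_one, Fin.reduceFinMk]; linear_combination h0)
    · intro i j hij
      fin_cases i <;> fin_cases j <;>
        first
        | exact absurd rfl hij
        | exact N₁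
        | exact N₂
        | exact N₃
        | exact sw _ _ _ _ _ N₁
        | exact sw _ _ _ _ _ N₂
        | exact sw _ _ _ _ _ N₃
    · intro i j
      fin_cases i <;> fin_cases j <;> rfl
  exact main3 hKEY hTWO hPAD hPRM hPOW hK hτ h5 hW hWr hD hcop hR h3R hF hno

theorem all_FNT : T_FNT := p_FNT (p_KEYR (p_JAC p_CHAR p_DIST) p_SELF) p_TWOR p_PADG p_PRMX p_POWX

end Pool.Agent.FCS
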