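import Pool.Agent.FCS.Core

/-!
# Furtwängler's theorem over quadratic fields: `r = 3`
-/

open NumberField IsDedekindDomain

namespace Pool.Agent.FCS

open Pool.Agent.FCW Pool.Agent.FCM Pool.Agent.FCN

open FN_ in
/-- a solution in `K` gives a solution in integers which are coprime at the primes above `r p` -/
theorem scaleK (K : Type) [Field K] [NumberField K]
    (hK : Module.finrank ℚ K = 2) (p : ℕ)
    (hp : p.Prime) (h5 : 5 ≤ p) (n : ℕ) (hn : p ∣ n)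
    (x y z : K) (hxyz : x * y * z ≠ 0) (h : x ^ n + y ^ n = z ^ n) (r : ℕ) (hr : r.Prime) :
    ∃ X : Fin 3 → 𝓞 K, (∀ i, X i ≠ 0) ∧ X 0 ^ p + X 1 ^ p + X 2 ^ p = 0 ∧
      (∀ Q : Ideal (𝓞 K), Q.IsPrime → ((r : 𝓞 K) ∈ Q ∨ (p : 𝓞 K) ∈ Q) →
        ∀ i j, i ≠ j → X i ∈ Q → X j ∉ Q) ∧
      ∀ Q : HeightOneSpectrum (𝓞 K), ((r : 𝓞 K) ∈ Q.asIdeal ∨ (p : 𝓞 K) ∈ Q.asIdeal) →
        (¬ (Q.valuation K x = Q.valuation K y ∧ Q.valuation K y = Q.valuation K z) ↔
          ∃ v, X v ∈ Q.asIdeal) := by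
  classical
  have : Fact p.Prime := ⟨hp⟩
  have hp0 : p ≠ 0 := hp.ne_zero
  have hodd : Odd p := hp.odd_of_ne_two (by omega)
  obtain ⟨k, rfl⟩ := hn
  have hk : k ≠ 0 := by
    rintro rfl
    rw [mul_zero, pow_zero, pow_zero, pow_zero] at h
    have h3 : (1 : K) = 0 := by linear_combination h
    exact one_ne_zero h3
  -- the third variable with the opposite sign, and `k`-th powers
  obtain ⟨V, hV⟩ : ∃ V : Fin 3 → K, V = ![x ^ k, y ^ k, -(z ^ k)] := ⟨_, rfl⟩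
  have hV0 : V 0 = x ^ k := by rw [hV]; rfl
  have hV1 : V 1 = y ^ k := by rw [hV]; rfl
  have hV2 : V 2 = -(z ^ k) := by rw [hV]; rfl
  have hz : z ≠ 0 := right_ne_zero_of_mul hxyz
  have hxy : x * y ≠ 0 := left_ne_zero_of_mul hxyz
  have hx : x ≠ 0 := left_ne_zero_of_mul hxy
  have hy : y ≠ 0 := right_ne_zero_of_mul hxy
  have hVne : ∀ i, V i ≠ 0 := by
    intro i
    fin_cases i
    · change V 0 ≠ 0
      rw [hV0]; exact pow_ne_zero k hx
    · change V 1 ≠ 0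
      rw [hV1]; exact pow_ne_zero k hy
    · change V 2 ≠ 0
      rw [hV2]; exact neg_ne_zero.mpr (pow_ne_zero k hz)
  have hVs : V 0 ^ p + V 1 ^ p + V 2 ^ p = 0 := by
    rw [hV0, hV1, hV2, hodd.neg_pow, ← pow_mul, ← pow_mul, ← pow_mul, mul_comm k p, h]
    ring
  -- integral representatives
  obtain ⟨b, hb⟩ := IsLocalization.exist_integer_multiples_of_finset
    (nonZeroDivisors (𝓞 K)) ({V 0, V 1, V 2} : Finset K)
  have hb0 : (b : 𝓞 K) ≠ 0 := nonZeroDivisors.ne_zero b.2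
  have hbi : ∀ i, ∃ W : 𝓞 K, algebraMap (𝓞 K) K W = algebraMap (𝓞 K) K b * V i := by
    intro i
    obtain ⟨W, hW⟩ := hb (V i) (by fin_cases i <;> simp)
    rw [Algebra.smul_def] at hW
    exact ⟨W, hW⟩
  choose W hWi using hbi
  have hbK : algebraMap (𝓞 K) K b ≠ 0 := by
    rw [Ne, FaithfulSMul.algebraMap_eq_zero_iff]
    exact hb0
  have hW0 : ∀ i, W i ≠ 0 := by
    intro i h0
    have := hWi i
    rw [h0, map_zero] at this
    exact mul_ne_zero hbK (hVne i) this.symm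
  have hWs : W 0 ^ p + W 1 ^ p + W 2 ^ p = 0 := by
    apply FaithfulSMul.algebraMap_injective (𝓞 K) K
    rw [map_add, map_add, map_pow, map_pow, map_pow, hWi, hWi, hWi, mul_pow, mul_pow, mul_pow,
      ← mul_add, ← mul_add, hVs, mul_zero, map_zero]
  have hrO : (r : 𝓞 K) ≠ 0 := by exact_mod_cast hr.ne_zero
  have hpO : (p : 𝓞 K) ≠ 0 := by exact_mod_cast hp.ne_zero
  have hq0 : (r : 𝓞 K) * (p : 𝓞 K) ≠ 0 := mul_ne_zero hrO hpO
  have hqu : ¬ IsUnit ((r : 𝓞 K) * (p : 𝓞 K)) := by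
    intro hu
    have hu' := isUnit_of_mul_isUnit_left hu
    have h1 : IsUnit (Algebra.norm ℤ ((r : ℕ) : 𝓞 K)) := hu'.map (Algebra.norm ℤ)
    have h2 : ((r : ℕ) : 𝓞 K) = algebraMap ℤ (𝓞 K) (r : ℤ) := by simp
    rw [h2, Algebra.norm_algebraMap, RingOfIntegers.rank, hK] at h1
    have h3 : IsUnit (r : ℤ) := (isUnit_pow_iff two_ne_zero).mp h1
    rw [Int.isUnit_iff] at h3
    have := hr.two_le
    omega
  obtain ⟨δ, c, hδ, hall, hcQ, hcop⟩ := EPK_.scale hq0 hqu (y := W 1) (hW0 0)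
  have hin : ∀ i, W i ∈ Ideal.span {W 0, W 1} := by
    intro i
    fin_cases i
    · exact Ideal.subset_span (by simp)
    · exact Ideal.subset_span (by simp)
    · apply EPK_.mem_of_pow hp0
      have h1 : W 2 ^ p = -(W 0 ^ p + W 1 ^ p) := by linear_combination hWs
      change W 2 ^ p ∈ _
      rw [h1]
      exact neg_mem (Ideal.add_mem _ (Ideal.pow_mem_pow (Ideal.subset_span (by simp)) _)
        (Ideal.pow_mem_pow (Ideal.subset_span (by simp)) _))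
  have hXex : ∀ i, ∃ X' : 𝓞 K, c * W i = δ * X' := fun i => hall (W i) (hin i)
  choose X hXi using hXex
  obtain ⟨Q₀, hQ₀, hqQ₀⟩ := exists_max_ideal_of_mem_nonunits hqu
  have hc0 : c ≠ 0 := fun h1 => hcQ Q₀ hQ₀.isPrime hqQ₀ (by rw [h1]; exact Ideal.zero_mem _)
  have hXne : ∀ i, X i ≠ 0 := by
    intro i h0
    have h1 := hXi i
    rw [h0, mul_zero] at h1
    exact mul_ne_zero hc0 (hW0 i) h1
  have hXs : X 0 ^ p + X 1 ^ p + X 2 ^ p = 0 := by
    apply mul_left_cancel₀ (pow_ne_zero p hδ)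
    rw [mul_add, mul_add, ← mul_pow, ← mul_pow, ← mul_pow, ← hXi, ← hXi, ← hXi, mul_pow, mul_pow,
      mul_pow, ← mul_add, ← mul_add, hWs, mul_zero, mul_zero]
  have hcop01 := hcop (X 0) (X 1) (hXi 0) (hXi 1)
  have hcopr : ∀ Q : Ideal (𝓞 K), Q.IsPrime → ((r : 𝓞 K) ∈ Q ∨ (p : 𝓞 K) ∈ Q) →
      ∀ i j, i ≠ j → X i ∈ Q → X j ∉ Q := by
    intro Q hQ hrpQ i j hij hi hj
    have hq : (r : 𝓞 K) * (p : 𝓞 K) ∈ Q := by
      rcases hrpQ with h1 | h1
      · exact Q.mul_mem_right _ h1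
      · exact Q.mul_mem_left _ h1
    have h01 := hcop01 Q hQ hq
    have hsum : ∀ a b c : 𝓞 K, a ^ p + b ^ p + c ^ p = 0 → a ∈ Q → b ∈ Q → c ∈ Q := by
      intro a b c h1 ha hb
      apply hQ.mem_of_pow_mem p
      have h2 : c ^ p = -(a ^ p + b ^ p) := by linear_combination h1
      rw [h2]
      exact Q.neg_mem (Q.add_mem (Q.pow_mem_of_mem ha p hp.pos) (Q.pow_mem_of_mem hb p hp.pos))
    have h12 : X 1 ∈ Q → X 2 ∈ Q → False := by
      intro h1 h2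
      exact h01 (hsum (X 1) (X 2) (X 0) (by linear_combination hXs) h1 h2) h1
    have h02 : X 0 ∈ Q → X 2 ∈ Q → False := by
      intro h1 h2
      exact h01 h1 (hsum (X 0) (X 2) (X 1) (by linear_combination hXs) h1 h2)
    fin_cases i <;> fin_cases j <;>
      first
      | exact absurd rfl hij
      | exact h01 hi hj
      | exact h01 hj hi
      | exact h12 hi hj
      | exact h12 hj hi
      | exact h02 hi hj
      | exact h02 hj hi
  -- the scaling factor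
  have hδK : algebraMap (𝓞 K) K δ ≠ 0 := by
    rw [Ne, FaithfulSMul.algebraMap_eq_zero_iff]
    exact hδ
  have hcK : algebraMap (𝓞 K) K c ≠ 0 := by
    rw [Ne, FaithfulSMul.algebraMap_eq_zero_iff]
    exact hc0
  obtain ⟨l, hl⟩ : ∃ l : K, l = algebraMap (𝓞 K) K c * algebraMap (𝓞 K) K b /
    algebraMap (𝓞 K) K δ := ⟨_, rfl⟩
  have hl0 : l ≠ 0 := by
    rw [hl]
    exact div_ne_zero (mul_ne_zero hcK hbK) hδK
  have tr : ∀ i, (X i : K) = l * V i := by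
    intro i
    have h3 : algebraMap (𝓞 K) K c * algebraMap (𝓞 K) K (W i) =
        algebraMap (𝓞 K) K δ * algebraMap (𝓞 K) K (X i) := by
      rw [← map_mul, ← map_mul, hXi]
    rw [hWi] at h3
    rw [hl]
    change algebraMap (𝓞 K) K (X i) = _
    field_simp
    linear_combination -h3
  -- valuations
  have veq : ∀ (Q : HeightOneSpectrum (𝓞 K)) (i j : Fin 3),
      (Q.valuation K (X i : K) = Q.valuation K (X j : K)) ↔
        (Q.valuation K (V i) = Q.valuation K (V j)) := by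
    intro Q i j
    have v0 : Q.valuation K l ≠ 0 := by rwa [Valuation.ne_zero_iff]
    rw [tr, tr, map_mul, map_mul]
    exact ⟨fun h => mul_left_cancel₀ v0 h, fun h => by rw [h]⟩
  have w0 : ∀ Q : HeightOneSpectrum (𝓞 K), Q.valuation K (V 0) = Q.valuation K x ^ k := by
    intro Q; rw [hV0, map_pow]
  have w1 : ∀ Q : HeightOneSpectrum (𝓞 K), Q.valuation K (V 1) = Q.valuation K y ^ k := by
    intro Q; rw [hV1, map_pow]
  have w2 : ∀ Q : HeightOneSpectrum (𝓞 K), Q.valuation K (V 2) = Q.valuation K z ^ k := by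
    intro Q; rw [hV2, Valuation.map_neg, map_pow]
  have hcQ' : ∀ Q : HeightOneSpectrum (𝓞 K), ((r : 𝓞 K) ∈ Q.asIdeal ∨ (p : 𝓞 K) ∈ Q.asIdeal) →
      ∀ i j, i ≠ j → X i ∈ Q.asIdeal → X j ∉ Q.asIdeal := fun Q hQ => hcopr Q.asIdeal Q.isPrime hQ
  have iall : ∀ Q : HeightOneSpectrum (𝓞 K), ((r : 𝓞 K) ∈ Q.asIdeal ∨ (p : 𝓞 K) ∈ Q.asIdeal) →
      (¬ (Q.valuation K x = Q.valuation K y ∧ Q.valuation K y = Q.valuation K z) ↔
        ∃ v, X v ∈ Q.asIdeal) := by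
    intro Q hQ
    rw [← val_eq_iff Q (hcQ' Q hQ), veq, veq, w0, w1, w2, pow_left_inj₀ zero_le zero_le hk,
      pow_left_inj₀ zero_le zero_le hk]
  exact ⟨X, hXne, hXs, hcopr, iall⟩

/-- Let `3` be not inert.  If the orders of `x, y, z` are equal at one prime above `3`, then they
are equal at every prime above `3 p`. -/
theorem three (K : Type) [Field K] [NumberField K]
    (hK : Module.finrank ℚ K = 2) (p : ℕ)
    (hp : p.Prime) (h5 : 5 ≤ p) (hW : ¬ p ^ 2 ∣ 2 ^ (p - 1) - 1)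
    (hWr : ¬ p ^ 2 ∣ 3 ^ (p - 1) - 1) (n : ℕ) (hn : p ∣ n)
    (x y z : K) (hxyz : x * y * z ≠ 0) (h : x ^ n + y ^ n = z ^ n)
    (h3 : ¬ (Ideal.span {(3 : 𝓞 K)}).IsPrime) (R : HeightOneSpectrum (𝓞 K))
    (hR : ((3 : ℕ) : 𝓞 K) ∈ R.asIdeal)
    (hno : R.valuation K x = R.valuation K y ∧ R.valuation K y = R.valuation K z)
    (Q : HeightOneSpectrum (𝓞 K)) (hQ : ((3 : ℕ) : 𝓞 K) ∈ Q.asIdeal ∨ (p : 𝓞 K) ∈ Q.asIdeal) :
    Q.valuation K x = Q.valuation K y ∧ Q.valuation K y = Q.valuation K z := by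
  have : Fact p.Prime := ⟨hp⟩
  obtain ⟨X, hX, h0, hcop, hv⟩ := scaleK K hK p hp h5 n hn x y z hxyz h 3 Nat.prime_three
  by_contra hc
  obtain ⟨v, hv1⟩ := (hv Q hQ).mp hc
  refine all_FNT K hK p h5 hW hWr X hX h0 hcop R.asIdeal R.isPrime hR
    (LOCS_.res_of_not_inert hK h3 R.isPrime (by exact_mod_cast hR)) (fun i hi => ?_)
    Q.asIdeal Q.isPrime hQ v hv1
  exact (hv R (Or.inl hR)).mpr ⟨i, hi⟩ hno

/-- Furtwängler's theorem over quadratic fields, also for `r = 3` without a condition on the primes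
above `3` if `3` is not inert. -/
theorem final_FS (K : Type) [Field K] [NumberField K]
    (hK : Module.finrank ℚ K = 2) (p : ℕ)
    (hp : p.Prime) (h5 : 5 ≤ p) (hW : ¬ p ^ 2 ∣ 2 ^ (p - 1) - 1) (n : ℕ) (hn : p ∣ n)
    (x y z : K) (hxyz : x * y * z ≠ 0) (h : x ^ n + y ^ n = z ^ n) (r : ℕ) (hr : r.Prime)
    (hrp : r ≠ p) (hWr : ¬ p ^ 2 ∣ r ^ (p - 1) - 1)
    (H : ((r = 2 ∨ r = 3 ∧ ¬ (Ideal.span {(3 : 𝓞 K)}).IsPrime) ∧
        ∃ Q : HeightOneSpectrum (𝓞 K), ((r * p : ℕ) : 𝓞 K) ∈ Q.asIdeal ∧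
        ¬ (Q.valuation K x = Q.valuation K y ∧ Q.valuation K y = Q.valuation K z)) ∨
      ((∀ R : HeightOneSpectrum (𝓞 K), (r : 𝓞 K) ∈ R.asIdeal →
          ¬ (R.valuation K x = R.valuation K y ∧ R.valuation K y = R.valuation K z)) ∧
        (¬ p ∣ r - 1 ∨ ∀ R R' : HeightOneSpectrum (𝓞 K), (r : 𝓞 K) ∈ R.asIdeal →
          (r : 𝓞 K) ∈ R'.asIdeal →
          (R.valuation K x < R.valuation K y → R'.valuation K x < R'.valuation K y) ∧
          (R.valuation K y < R.valuation K z → R'.valuation K y < R'.valuation K z) ∧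
          (R.valuation K z < R.valuation K x → R'.valuation K z < R'.valuation K x)))) :
    (∀ Q : HeightOneSpectrum (𝓞 K), ((r * p : ℕ) : 𝓞 K) ∈ Q.asIdeal →
      ¬ (Q.valuation K x = Q.valuation K y ∧ Q.valuation K y = Q.valuation K z)) ∧
    ((∃ R : HeightOneSpectrum (𝓞 K), (r : 𝓞 K) ∈ R.asIdeal ∧
        R.valuation K x < R.valuation K y) ↔
      ∃ P : HeightOneSpectrum (𝓞 K), (p : 𝓞 K) ∈ P.asIdeal ∧
        P.valuation K x < P.valuation K y) ∧
    ((∃ R : HeightOneSpectrum (𝓞 K), (r : 𝓞 K) ∈ R.asIdeal ∧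
        R.valuation K y < R.valuation K z) ↔
      ∃ P : HeightOneSpectrum (𝓞 K), (p : 𝓞 K) ∈ P.asIdeal ∧
        P.valuation K y < P.valuation K z) ∧
    ((∃ R : HeightOneSpectrum (𝓞 K), (r : 𝓞 K) ∈ R.asIdeal ∧
        R.valuation K z < R.valuation K x) ↔
      ∃ P : HeightOneSpectrum (𝓞 K), (p : 𝓞 K) ∈ P.asIdeal ∧
        P.valuation K z < P.valuation K x) := by
  refine final_FN all_FNP K hK p hp h5 hW n hn x y z hxyz h r hr hrp hWr ?_
  rcases H with ⟨rfl | ⟨rfl, h3⟩, Q, hQ, hne⟩ | H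
  · exact Or.inl ⟨rfl, Q, hQ, hne⟩
  · right
    constructor
    · intro R hR hno
      refine hne (three K hK p hp h5 hW hWr n hn x y z hxyz h h3 R hR hno Q ?_)
      rw [Nat.cast_mul] at hQ
      exact Q.isPrime.mem_or_mem hQ
    · left
      intro h6
      have := Nat.le_of_dvd (by norm_num) h6
      omega
  · exact Or.inr H

end Pool.Agent.FCS
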