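import Pool.Agent.FCS.Three

/-!
# Furtwängler's theorem over quadratic fields: congruences at the primes above `3`
-/

open NumberField

namespace Pool.Agent.FCS

open Pool.Agent.FCW Pool.Agent.FCM Pool.Agent.FCN

variable {K : Type} [Field K] [NumberField K]
variable {τ : 𝓞 K ≃+* 𝓞 K} {p : ℕ} {X : Fin 3 → 𝓞 K} {g : ℤ} {N : Fin 3 → ℤ}
  {T : Fin 3 → Fin 3 → ℤ} {P : Ideal (𝓞 K)}

/-- every element is congruent to an integer -/
def Res (P : Ideal (𝓞 K)) : Prop := ∀ t : 𝓞 K, ∃ n : ℤ, t - n ∈ P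

namespace LOCS_

theorem z3 : ∀ x y z : ZMod 3, x ≠ 0 → y ≠ 0 → z ≠ 0 → x + y + z = 0 → y = x ∧ z = x := by
  decide

theorem pow_odd {p : ℕ} (hp : Odd p) (a : ZMod 3) : a ^ p = a := by
  obtain ⟨k, rfl⟩ := hp
  rw [pow_succ, pow_mul]
  have h : ∀ a : ZMod 3, a = 0 ∨ a ^ 2 = 1 := by decide
  rcases h a with h | h
  · rw [h, mul_zero]
  · rw [h, one_pow, one_mul]

theorem res (hp : p.Prime) (h5 : 5 ≤ p) (hD : Dat τ p X g N T) (hP : Pl τ 3 X P)
    (hF : Res P) : ∃ a b : Fin 3 → ZMod 3,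
      (∀ i, a i = 0 ↔ X i ∈ P) ∧ (∀ i, b i = 0 ↔ τ (X i) ∈ P) ∧
      (∀ i j k, i ≠ j → i ≠ k → j ≠ k → a i + a j + a k = 0 ∧ b i + b j + b k = 0) ∧
      (∀ i, (g : ZMod 3) * (N i : ZMod 3) = a i * b i) ∧
      ∀ i j, i ≠ j → (g : ZMod 3) * (T i j : ZMod 3) = a i * b j + a j * b i := by
  have hpr := hP.pr
  have hodd : Odd p := hp.odd_of_ne_two (by omega)
  choose a ha using fun i => hF (X i)
  choose b hb using fun i => hF (τ (X i))
  have im : ∀ n : ℤ, (n : 𝓞 K) ∈ P ↔ ((n : ℤ) : ZMod 3) = 0 := by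
    intro n
    rw [ZMod.intCast_zmod_eq_zero_iff_dvd n 3]
    exact LOCP_.int_mem Nat.prime_three hP.pr hP.mem
  have cg : ∀ (t : 𝓞 K) (n : ℤ), t - n ∈ P → (((n : ℤ) : ZMod 3) = 0 ↔ t ∈ P) := by
    intro t n h
    rw [← im]
    constructor
    · intro h1
      have h2 := P.add_mem h h1
      rwa [sub_add_cancel] at h2
    · intro h1
      have h2 := P.sub_mem h1 h
      rwa [sub_sub_cancel] at h2
  have mulc : ∀ (s t : 𝓞 K) (m n : ℤ), s - m ∈ P → t - n ∈ P → s * t - ((m * n : ℤ) : 𝓞 K) ∈ P := by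
    intro s t m n h1 h2
    have e : s * t - ((m * n : ℤ) : 𝓞 K) = (s - m) * t + m * (t - n) := by
      push_cast
      ring
    rw [e]
    exact P.add_mem (P.mul_mem_right _ h1) (P.mul_mem_left _ h2)
  have powc : ∀ (s : 𝓞 K) (m : ℤ) (k : ℕ), s - m ∈ P → s ^ k - ((m ^ k : ℤ) : 𝓞 K) ∈ P := by
    intro s m k h1
    rw [Int.cast_pow]
    exact P.mem_of_dvd (sub_dvd_pow_sub_pow _ _ _) h1
  have sum : ∀ (s t w : 𝓞 K) (l m n : ℤ), s ^ p + t ^ p + w ^ p = 0 → s - l ∈ P → t - m ∈ P →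
      w - n ∈ P → (l : ZMod 3) + m + n = 0 := by
    intro s t w l m n h0 h1 h2 h3
    have h4 := P.add_mem (P.add_mem (powc s l p h1) (powc t m p h2)) (powc w n p h3)
    have h5' : ((l ^ p + m ^ p + n ^ p : ℤ) : 𝓞 K) ∈ P := by
      have e : ((l ^ p + m ^ p + n ^ p : ℤ) : 𝓞 K) = -(s ^ p - ((l ^ p : ℤ) : 𝓞 K) +
          (t ^ p - ((m ^ p : ℤ) : 𝓞 K)) + (w ^ p - ((n ^ p : ℤ) : 𝓞 K))) := by
        push_cast
        linear_combination h0
      rw [e]
      exact P.neg_mem h4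
    rw [im] at h5'
    push_cast at h5'
    rwa [pow_odd hodd, pow_odd hodd, pow_odd hodd] at h5'
  have eqc : ∀ (m n : ℤ), ((m - n : ℤ) : 𝓞 K) ∈ P → (m : ZMod 3) = n := by
    intro m n h
    rw [im] at h
    push_cast at h
    exact sub_eq_zero.mp h
  refine ⟨fun i => (a i : ZMod 3), fun i => (b i : ZMod 3), fun i => cg _ _ (ha i),
    fun i => cg _ _ (hb i), fun i j k hij hik hjk => ⟨?_, ?_⟩, fun i => ?_, fun i j hij => ?_⟩
  · exact sum _ _ _ _ _ _ (hD.sum i j k hij hik hjk) (ha i) (ha j) (ha k)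
  · refine sum _ _ _ _ _ _ ?_ (hb i) (hb j) (hb k)
    have h4 := congrArg τ (hD.sum i j k hij hik hjk)
    rwa [map_add, map_add, map_pow, map_pow, map_pow, map_zero] at h4
  · obtain ⟨w, hw⟩ := CMP_.other i
    have h1 := (hD.nf i w (Ne.symm hw)).hA
    have h2 := mulc _ _ _ _ (ha i) (hb i)
    rw [h1] at h2
    have h3 := eqc (g * N i) (a i * b i) (by push_cast; push_cast at h2; exact h2)
    push_cast at h3
    exact h3
  · have h1 := (hD.nf i j hij).hT
    have h2 := P.add_mem (mulc _ _ _ _ (ha i) (hb j)) (mulc _ _ _ _ (ha j) (hb i))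
    have h3 := eqc (g * T i j) (a i * b j + a j * b i) (by
      have e : ((g * T i j - (a i * b j + a j * b i) : ℤ) : 𝓞 K) =
          (X i * τ (X j) - ((a i * b j : ℤ) : 𝓞 K)) +
            (X j * τ (X i) - ((a j * b i : ℤ) : 𝓞 K)) := by
        push_cast
        linear_combination -h1
      rw [e]
      exact h2)
    push_cast at h3
    exact h3

theorem side3 (hp : p.Prime) (h5 : 5 ≤ p) (hD : Dat τ p X g N T) (hP : Pl τ 3 X P)
    (hF : Res P) (h1 : ∀ i, X i ∉ P) :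
    ((∀ i, τ (X i) ∉ P) ∧ S0 3 N T) ∨ ∃ v, τ (X v) ∈ P ∧ S3 3 N T v := by
  obtain ⟨a, b, ha, hb, hs, hN, hT⟩ := res hp h5 hD hP hF
  have zc : ∀ n : ℤ, ((n : ℤ) : ZMod 3) = 0 → ((3 : ℕ) : ℤ) ∣ n := fun n h =>
    (ZMod.intCast_zmod_eq_zero_iff_dvd n 3).mp h
  have cz : ∀ n : ℤ, ((3 : ℕ) : ℤ) ∣ n → ((n : ℤ) : ZMod 3) = 0 := fun n h =>
    (ZMod.intCast_zmod_eq_zero_iff_dvd n 3).mpr h
  have three : (3 : ZMod 3) = 0 := by decide
  have a0 : ∀ i, a i ≠ 0 := fun i h => h1 i ((ha i).mp h)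
  have aeq : ∀ i j, i ≠ j → a j = a i := by
    intro i j hij
    obtain ⟨k, hki, hkj⟩ := CMP_.third i j hij
    exact (z3 _ _ _ (a0 i) (a0 j) (a0 k) (hs i j k hij (Ne.symm hki) (Ne.symm hkj)).1).1
  by_cases h2 : ∀ i, τ (X i) ∉ P
  · left
    refine ⟨h2, ?_⟩
    have b0 : ∀ i, b i ≠ 0 := fun i h => h2 i ((hb i).mp h)
    intro u v huv
    obtain ⟨k, hku, hkv⟩ := CMP_.third u v huv
    have e1 := aeq u v huv
    have e2 : b v = b u := (z3 _ _ _ (b0 u) (b0 v) (b0 k)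
      (hs u v k huv (Ne.symm hku) (Ne.symm hkv)).2).1
    have f1 := hN u
    have f2 := hN v
    have f3 := hT u v huv
    rw [e1, e2] at f2 f3
    have hg : (g : ZMod 3) ≠ 0 := by
      intro h
      rw [h, zero_mul] at f1
      exact mul_ne_zero (a0 u) (b0 u) f1.symm
    refine ⟨fun h => ?_, zc _ ?_, zc _ ?_⟩
    · rw [cz _ h, mul_zero] at f1
      exact mul_ne_zero (a0 u) (b0 u) f1.symm
    · apply mul_left_cancel₀ hg
      push_cast
      linear_combination f1 - f2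
    · apply mul_left_cancel₀ hg
      push_cast
      linear_combination f1 + f3 + a u * b u * three
  · right
    push Not at h2
    obtain ⟨v, hv⟩ := h2
    have bv : b v = 0 := (hb v).mpr hv
    have b0 : ∀ i, i ≠ v → b i ≠ 0 := fun i hi h =>
      hP.cop' v i (Ne.symm hi) hv ((hb i).mp h)
    obtain ⟨u₀, hu₀⟩ := CMP_.other v
    have hg : (g : ZMod 3) ≠ 0 := by
      intro h
      have f1 := hN u₀
      rw [h, zero_mul] at f1
      exact mul_ne_zero (a0 u₀) (b0 u₀ hu₀) f1.symm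
    refine ⟨v, hv, zc _ ?_, fun u hu => ⟨fun h => ?_, zc _ ?_, fun w hwv hwu => ⟨zc _ ?_, zc _ ?_⟩⟩⟩
    · apply mul_left_cancel₀ hg
      rw [hN v, bv]
      ring
    · have f1 := hN u
      rw [cz _ h, mul_zero] at f1
      exact mul_ne_zero (a0 u) (b0 u hu) f1.symm
    · apply mul_left_cancel₀ hg
      have f1 := hN u
      have f2 := hT u v hu
      rw [bv, aeq u v hu] at f2
      push_cast
      linear_combination f2 - f1
    · apply mul_left_cancel₀ hg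
      have f1 := hN u
      have f2 := hN w
      rw [aeq u w (Ne.symm hwu)] at f2
      have f3 := (hs u w v (Ne.symm hwu) hu hwv).2
      rw [bv] at f3
      push_cast
      linear_combination f1 + f2 + a u * f3
    · apply mul_left_cancel₀ hg
      have f2 := hT u w (Ne.symm hwu)
      rw [aeq u w (Ne.symm hwu)] at f2
      have f3 := (hs u w v (Ne.symm hwu) hu hwv).2
      rw [bv] at f3
      linear_combination f2 + a u * f3

/-- if `3` is not inert, every integer of `K` is congruent to a rational integer modulo a prime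
above `3` -/
theorem res_of_not_inert (hK : Module.finrank ℚ K = 2)
    (h3 : ¬ (Ideal.span {(3 : 𝓞 K)}).IsPrime) (hP : P.IsPrime) (hm : (3 : 𝓞 K) ∈ P) : Res P := by
  have h30 : (3 : 𝓞 K) ≠ 0 := by norm_num
  have hle : Ideal.span {(3 : 𝓞 K)} ≤ P := by
    rw [Ideal.span_singleton_le_iff_mem]
    exact hm
  have hP0 : P ≠ ⊥ := by
    rintro rfl
    exact h30 ((Ideal.mem_bot).mp hm)
  obtain ⟨J, hJ⟩ := Ideal.dvd_iff_le.mpr hle
  have hn : Ideal.absNorm (Ideal.span {(3 : 𝓞 K)}) = 9 := by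
    rw [Ideal.absNorm_span_singleton]
    have h1 : (3 : 𝓞 K) = algebraMap ℤ (𝓞 K) 3 := by simp
    rw [h1, Algebra.norm_algebraMap, RingOfIntegers.rank, hK]
    norm_num
  rw [hJ, map_mul] at hn
  have hP1 : Ideal.absNorm P ≠ 1 := by
    rw [Ne, Ideal.absNorm_eq_one_iff]
    exact hP.ne_top
  have hJ1 : Ideal.absNorm J ≠ 1 := by
    rw [Ne, Ideal.absNorm_eq_one_iff]
    rintro rfl
    apply h3
    rw [hJ, Ideal.mul_top]
    exact hP
  have hc : Ideal.absNorm P = 3 := by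
    have h4 : Ideal.absNorm P ∣ 3 ^ 2 := ⟨Ideal.absNorm J, by rw [hn]; norm_num⟩
    rw [Nat.dvd_prime_pow Nat.prime_three] at h4
    obtain ⟨k, hk, h5⟩ := h4
    interval_cases k
    · exact absurd h5 (by simpa using hP1)
    · simpa using h5
    · exfalso
      rw [h5] at hn
      omega
  rw [Ideal.absNorm_apply, Submodule.cardQuot_apply] at hc
  have hc' : Nat.card (𝓞 K ⧸ P) = 3 := hc
  have hfin : Finite (𝓞 K ⧸ P) := Nat.finite_of_card_ne_zero (by rw [hc']; norm_num)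
  have hnt : Nontrivial (𝓞 K ⧸ P) := Ideal.Quotient.nontrivial_iff.mpr hP.ne_top
  have hz : AddSubgroup.zmultiples (1 : 𝓞 K ⧸ P) = ⊤ := by
    apply AddSubgroup.eq_top_of_card_eq
    have h4 := AddSubgroup.card_addSubgroup_dvd_card (AddSubgroup.zmultiples (1 : 𝓞 K ⧸ P))
    rw [hc', Nat.dvd_prime Nat.prime_three] at h4
    rw [hc']
    rcases h4 with h4 | h4
    · exfalso
      rw [AddSubgroup.card_eq_one] at h4
      have h5 : (1 : 𝓞 K ⧸ P) ∈ AddSubgroup.zmultiples (1 : 𝓞 K ⧸ P) :=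
        AddSubgroup.mem_zmultiples 1
      rw [h4, AddSubgroup.mem_bot] at h5
      exact one_ne_zero h5
    · exact h4
  intro t
  have h5 : Ideal.Quotient.mk P t ∈ AddSubgroup.zmultiples (1 : 𝓞 K ⧸ P) := by
    rw [hz]
    exact AddSubgroup.mem_top _
  rw [AddSubgroup.mem_zmultiples_iff] at h5
  obtain ⟨n, hn⟩ := h5
  refine ⟨n, ?_⟩
  rw [← Ideal.Quotient.eq_zero_iff_mem, map_sub, map_intCast, ← hn, zsmul_one, sub_self]

end LOCS_

end Pool.Agent.FCS
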