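import Pool.Agent.FCN.All

/-!
# Furtwängler's theorem over quadratic fields: the primes above `3`

If `3` is not inert in the quadratic field `K`, the residue fields of the primes above `3` have
three elements, and three nonzero elements with sum zero are equal.
-/

open NumberField

namespace Pool.Agent.FCS

open Pool.Agent.FCW Pool.Agent.FCM Pool.Agent.FCN

/-- one prime above `q` divides the variable `v`, the other one divides no variable (`q = 3`) -/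
def S3 (q : ℕ) (N : Fin 3 → ℤ) (T : Fin 3 → Fin 3 → ℤ) (v : Fin 3) : Prop :=
  (q : ℤ) ∣ N v ∧ ∀ u, u ≠ v → ¬ (q : ℤ) ∣ N u ∧ (q : ℤ) ∣ T u v - N u ∧
    ∀ w, w ≠ v → w ≠ u → (q : ℤ) ∣ N u + N w ∧ (q : ℤ) ∣ T u w

namespace PATS_

variable {p : ℕ} [Fact p.Prime] {r : ℕ}

theorem two_ndvd (h5 : 5 ≤ p) : ¬ p ∣ 2 := fun h => by
  have := Nat.le_of_dvd (by norm_num) h
  omega

theorem pat1p (hr : r.Prime) (hrp : r ≠ p) (h5 : 5 ≤ p) {A T B : ℤ} (hA : ¬ (r : ℤ) ∣ A)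
    (hT : (r : ℤ) ∣ T - A) (hB : (r : ℤ) ∣ B) : Pat p r (Fz p A T B) 1 1 := by
  refine ⟨Or.inl rfl, ?_, fun l hl hrl h => ?_⟩
  · have h1 : Fz p A T B - ((1 : ℤ) : Oc p) * zt p ^ 1 * cc p (Fz p A T B) =
        ((T - A : ℤ) : Oc p) * (zt p - 1) + (B : Oc p) * (zt p ^ 2 - cc p (zt p)) := by
      rw [PAT_.cc_Fz']
      unfold Fz
      push_cast
      have hz := PAT_.zcc (p := p)
      linear_combination (-(T : Oc p) - (B : Oc p) * cc p (zt p)) * hz
    rw [h1]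
    exact dvd_add (Dvd.dvd.mul_right (PAT_.cast_dvd hT) _)
      (Dvd.dvd.mul_right (PAT_.cast_dvd hB) _)
  · have h1 : (A : Oc p) * (1 + zt p) = Fz p A T B - (((T - A : ℤ) : Oc p) * zt p +
        (B : Oc p) * zt p ^ 2) := by
      unfold Fz
      push_cast
      ring
    have h2 : (A : Oc p) * (1 + zt p) ∈ l := by
      rw [h1]
      exact l.sub_mem h (l.add_mem (l.mul_mem_right _ (PAT_.int_mem hrl hT))
        (l.mul_mem_right _ (PAT_.int_mem hrl hB)))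
    rcases hl.mem_or_mem h2 with h3 | h3
    · exact PAT_.int_notMem hr hl hrl hA h3
    · apply PAT_.zt_pow_notMem hr hrp hl hrl (two_ndvd h5)
      have h4 : zt p ^ 2 - 1 = (1 + zt p) * (zt p - 1) := by ring
      rw [h4]
      exact l.mul_mem_right _ h3

theorem pat3p (hr : r.Prime) (hrp : r ≠ p) (h5 : 5 ≤ p) {A T B : ℤ} (hA : (r : ℤ) ∣ A)
    (hT : (r : ℤ) ∣ T - B) (hB : ¬ (r : ℤ) ∣ B) : Pat p r (Fz p A T B) 3 1 := by
  refine ⟨Or.inl rfl, ?_, fun l hl hrl h => ?_⟩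
  · have h1 : Fz p A T B - ((1 : ℤ) : Oc p) * zt p ^ 3 * cc p (Fz p A T B) =
        (A : Oc p) * (1 - zt p ^ 3) + ((T - B : ℤ) : Oc p) * (zt p - zt p ^ 2) := by
      rw [PAT_.cc_Fz']
      unfold Fz
      push_cast
      have hz := PAT_.zcc (p := p)
      linear_combination (-(T : Oc p) * zt p ^ 2 - (B : Oc p) * zt p *
        (zt p * cc p (zt p) + 1)) * hz
    rw [h1]
    exact dvd_add (Dvd.dvd.mul_right (PAT_.cast_dvd hA) _)
      (Dvd.dvd.mul_right (PAT_.cast_dvd hT) _)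
  · have h1 : (B : Oc p) * (zt p * (1 + zt p)) = Fz p A T B - ((A : Oc p) +
        ((T - B : ℤ) : Oc p) * zt p) := by
      unfold Fz
      push_cast
      ring
    have h2 : (B : Oc p) * (zt p * (1 + zt p)) ∈ l := by
      rw [h1]
      exact l.sub_mem h (l.add_mem (PAT_.int_mem hrl hA)
        (l.mul_mem_right _ (PAT_.int_mem hrl hT)))
    rcases hl.mem_or_mem h2 with h3 | h3
    · exact PAT_.int_notMem hr hl hrl hB h3
    · rcases hl.mem_or_mem h3 with h4 | h4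
      · exact PAT_.zt_notMem hl h4
      · apply PAT_.zt_pow_notMem hr hrp hl hrl (two_ndvd h5)
        have h6 : zt p ^ 2 - 1 = (1 + zt p) * (zt p - 1) := by ring
        rw [h6]
        exact l.mul_mem_right _ h4

theorem pat2m (hr : r.Prime) (hrp : r ≠ p) (h5 : 5 ≤ p) {A T B : ℤ} (hA : ¬ (r : ℤ) ∣ A)
    (hAB : (r : ℤ) ∣ A + B) (hT : (r : ℤ) ∣ T) : Pat p r (Fz p A T B) 2 (-1) := by
  refine ⟨Or.inr rfl, ?_, fun l hl hrl h => ?_⟩
  · have h1 : Fz p A T B - ((-1 : ℤ) : Oc p) * zt p ^ 2 * cc p (Fz p A T B) =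
        ((A + B : ℤ) : Oc p) * (1 + zt p ^ 2) + (T : Oc p) * (2 * zt p) := by
      rw [PAT_.cc_Fz']
      unfold Fz
      push_cast
      have hz := PAT_.zcc (p := p)
      linear_combination ((T : Oc p) * zt p + (B : Oc p) *
        (zt p * cc p (zt p) + 1)) * hz
    rw [h1]
    exact dvd_add (Dvd.dvd.mul_right (PAT_.cast_dvd hAB) _)
      (Dvd.dvd.mul_right (PAT_.cast_dvd hT) _)
  · have h1 : (A : Oc p) * (zt p ^ 2 - 1) = -(Fz p A T B - ((T : Oc p) * zt p +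
        ((A + B : ℤ) : Oc p) * zt p ^ 2)) := by
      unfold Fz
      push_cast
      ring
    have h2 : (A : Oc p) * (zt p ^ 2 - 1) ∈ l := by
      rw [h1]
      exact l.neg_mem (l.sub_mem h (l.add_mem (l.mul_mem_right _ (PAT_.int_mem hrl hT))
        (l.mul_mem_right _ (PAT_.int_mem hrl hAB))))
    rcases hl.mem_or_mem h2 with h3 | h3
    · exact PAT_.int_notMem hr hl hrl hA h3
    · exact PAT_.zt_pow_notMem hr hrp hl hrl (two_ndvd h5) h3

end PATS_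

namespace CMPS_

open CMP_

variable {p : ℕ} [Fact p.Prime] {r : ℕ} {N : Fin 3 → ℤ} {T : Fin 3 → Fin 3 → ℤ}

theorem cmp1 (h5 : 5 ≤ p) (hr : r.Prime) (hrp : r ≠ p) (hT : ∀ i j, T i j = T j i) {v' : Fin 3}
    (hp : S1 p N T v') (hR : ∀ u, u ≠ v' → Rl p r N T u v') {v : Fin 3} (h : S3 r N T v) :
    False := by
  by_cases hvv : v' = v
  · subst hvv
    obtain ⟨u, hu⟩ := other v'
    obtain ⟨a, ha⟩ := hp.1
    obtain ⟨h1, b, hb⟩ := hp.2 u hu
    obtain ⟨h2, h3, _⟩ := h.2 u hu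
    obtain ⟨c, hc⟩ := hR u hu 1 1 (PATS_.pat1p hr hrp h5 h2 h3 h.1)
    refine contra (m := 1) (k := N u) (by norm_num) (by omega) h1 ⟨c + b + 3 * a, ?_⟩ (by simp)
    push_cast at hc
    linear_combination hc + hb + 3 * ha
  · obtain ⟨a, ha⟩ := hp.1
    obtain ⟨h1, b, hb⟩ := hp.2 v (Ne.symm hvv)
    obtain ⟨h2, h3, _⟩ := h.2 v' hvv
    obtain ⟨c, hc⟩ := hR v (Ne.symm hvv) 3 1 (PATS_.pat3p hr hrp h5 h.1 (by rw [hT]; exact h3) h2)
    refine contra (m := 3) (k := 3 * N v) (by norm_num) (by omega) h1 ⟨c - b + a, ?_⟩ (by simp)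
    push_cast at hc
    linear_combination hc - hb + ha

theorem cmp2 (h5 : 5 ≤ p) (hr : r.Prime) (hrp : r ≠ p) (hT : ∀ i j, T i j = T j i) {u' : Fin 3}
    (hX : ∀ v, v ≠ u' → RlX p r N T u' v) {v : Fin 3} (h : S3 r N T v) : False := by
  by_cases huv : u' = v
  · subst huv
    obtain ⟨w, hw⟩ := other u'
    obtain ⟨h2, h3, _⟩ := h.2 w hw
    have h6 := hX w hw 3 1 (PATS_.pat3p hr hrp h5 h.1 (by rw [hT]; exact h3) h2)
    exact small h5 (m := 2) (by norm_num) (by norm_num) (by norm_num) h6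
  · obtain ⟨w, hwu, hwv⟩ := third u' v huv
    obtain ⟨h2, _, h3⟩ := h.2 u' huv
    obtain ⟨h4, h4'⟩ := h3 w hwv hwu
    have h6 := hX w hwu 2 (-1) (PATS_.pat2m hr hrp h5 h2 h4 h4')
    exact small h5 (m := 1) (by norm_num) (by norm_num) (by norm_num) h6

theorem cmp0 (h5 : 5 ≤ p) (hr : r.Prime) (hrp : r ≠ p)
    (hp : S0 p N T) (hR : ∀ u v, u ≠ v → Rl p r N T u v) {v : Fin 3} (h : S3 r N T v) :
    False := by
  obtain ⟨u, hu⟩ := other v
  obtain ⟨h1, ⟨a, ha⟩, b, hb⟩ := hp u v hu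
  obtain ⟨h2, h3, _⟩ := h.2 u hu
  obtain ⟨c, hc⟩ := hR u v hu 1 1 (PATS_.pat1p hr hrp h5 h2 h3 h.1)
  refine contra (m := 1) (k := N u) (by norm_num) (by omega) h1 ⟨-c - b + 3 * a, ?_⟩ (by simp)
  push_cast at hc
  linear_combination -hc - hb + 3 * ha

end CMPS_

end Pool.Agent.FCS
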